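import Pool.Agent.Q331.EA.Main

/-!
# MP_dc81eb_lc, Q1: `T*(n) = Ω(n ^ (3 / 2))` for the (1+1) EA

The adversary keeps all jobs on the fuller machine long (`U = 1`) and all other jobs tiny
(`L = 1 / (2 n)`).  When a long job moves over, the mutation also brings back on average almost one
of the tiny jobs, which the adversary then makes long.  So the number `Z` of jobs on the fuller
machine is an almost unbiased random walk with variance `Z / n` per step; started at `√n` it needs
about `n ^ (3 / 2)` steps.
-/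

namespace Pool.Agent.Results.MP_dc81eb_lc.LowerBound

open Q331.EA Filter Asymptotics

/-- `T*(n) ≥ n ^ (3 / 2) / 160` for all `n ≥ 256`; in particular `T*(n)` is not `O(n log n)`. -/
theorem result : (∀ n : ℕ, 256 ≤ n → ENNReal.ofReal ((n : ℝ) * √n / 160) ≤ Tstar n) ∧
    ∀ C : ℝ, ∃ n : ℕ, ENNReal.ofReal (C * (n * Real.log n)) < Tstar n := by
  refine ⟨fun n hn => Tstar_ge hn, fun C => ?_⟩
  have ho := (isLittleO_log_rpow_atTop (r := 1 / 2) (by norm_num)).bound
    (c := 1 / (320 * (|C| + 1))) (by positivity)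
  have hn := (tendsto_natCast_atTop_atTop (R := ℝ)).eventually ho
  obtain ⟨n, h1, h2⟩ := (hn.and (eventually_ge_atTop 256)).exists
  refine ⟨n, lt_of_lt_of_le ?_ (Tstar_ge h2)⟩
  have hnr : (256 : ℝ) ≤ n := by exact_mod_cast h2
  have hs : 0 < √(n : ℝ) := Real.sqrt_pos.mpr (by linarith)
  have hlog : 0 ≤ Real.log n := Real.log_nonneg (by linarith)
  rw [← Real.sqrt_eq_rpow, Real.norm_of_nonneg hlog, Real.norm_of_nonneg hs.le] at h1
  have h3 : C * Real.log n < √n / 160 := by
    have a1 : C * Real.log n ≤ |C| * Real.log n :=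
      mul_le_mul_of_nonneg_right (le_abs_self C) hlog
    have a2 : |C| * Real.log n ≤ |C| * (1 / (320 * (|C| + 1)) * √n) :=
      mul_le_mul_of_nonneg_left h1 (abs_nonneg C)
    have a3 : |C| * (1 / (320 * (|C| + 1)) * √n) = (|C| / (|C| + 1)) * (√n / 320) := by
      field_simp
    have a4 : |C| / (|C| + 1) ≤ 1 := by
      rw [div_le_one (by positivity)]; linarith
    have a5 : (|C| / (|C| + 1)) * (√n / 320) ≤ 1 * (√n / 320) :=
      mul_le_mul_of_nonneg_right a4 (by positivity)
    linarith
  have h4 : C * (n * Real.log n) < n * √n / 160 := by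
    have : (n : ℝ) * (C * Real.log n) < n * (√n / 160) :=
      mul_lt_mul_of_pos_left h3 (by linarith)
    linarith
  rw [ENNReal.ofReal_lt_ofReal_iff (by positivity)]
  exact h4

end Pool.Agent.Results.MP_dc81eb_lc.LowerBound
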